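import Pool.Agent.H27.RC.Main

/-!
# MP_1a9c16_co: symmetric groups have Ramsey Cayley graphs

`S` is a symmetric set of permutations; a clique of `Cay(S_n, S)` is a set `X` with `x⁻¹ * y ∈ S`
for distinct `x, y ∈ X`, an independent set is a set `X` with `x⁻¹ * y ∉ S` for distinct
`x, y ∈ X`.
-/

namespace Pool.Agent.Results.MP_1a9c16_co.RamseySymmetric

theorem result : ∃ C : ℝ, 1 / 2 < C ∧ ∀ n : ℕ, 2 ≤ n → ∃ S : Set (Equiv.Perm (Fin n)),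
    (∀ g ∈ S, g⁻¹ ∈ S) ∧ ∀ X : Finset (Equiv.Perm (Fin n)),
      ((∀ x ∈ X, ∀ y ∈ X, x ≠ y → x⁻¹ * y ∈ S) ∨ (∀ x ∈ X, ∀ y ∈ X, x ≠ y → x⁻¹ * y ∉ S)) →
      (X.card : ℝ) ≤ C * Real.logb 2 (n.factorial : ℝ) := by
  obtain ⟨C, hC⟩ := RC.ramsey_cayley_perm
  refine ⟨max C 1, by have := le_max_right C 1; linarith, ?_⟩
  intro n hn
  obtain ⟨S, hS, hX⟩ := hC n hn
  refine ⟨S, hS, fun X h => (hX X h).trans ?_⟩
  apply mul_le_mul_of_nonneg_right (le_max_left _ _)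
  apply Real.logb_nonneg (by norm_num)
  exact_mod_cast Nat.succ_le_of_lt n.factorial_pos

end Pool.Agent.Results.MP_1a9c16_co.RamseySymmetric
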